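import Mathlib

set_option autoImplicit false

namespace Pool.Agent.H8KD

open KaehlerDifferential MvPolynomial

theorem lin_of_tb {L : Type} [Field L] [CharZero L] (A : Subring L) {t : Type} (b : t → L)
    (h : IsTranscendenceBasis A b) :
    LinearIndependent L (fun i => KaehlerDifferential.D A L (b i)) := by
  have hinj : Function.Injective (aeval b : MvPolynomial t A →ₐ[A] L) := h.1
  let _ : Algebra (MvPolynomial t A) L := (aeval b : MvPolynomial t A →ₐ[A] L).toRingHom.toAlgebra
  have halg : ∀ p : MvPolynomial t A, algebraMap (MvPolynomial t A) L p = aeval b p :=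
    fun _ => rfl
  have : IsScalarTower A (MvPolynomial t A) L := IsScalarTower.of_algebraMap_eq fun a => by
    rw [halg]; simp
  have : FaithfulSMul (MvPolynomial t A) L :=
    (faithfulSMul_iff_algebraMap_injective _ _).2 hinj
  let _ := FractionRing.liftAlgebra (MvPolynomial t A) L
  have : IsScalarTower (MvPolynomial t A) (FractionRing (MvPolynomial t A)) L :=
    FractionRing.isScalarTower_liftAlgebra _ _
  have h1 := h.isAlgebraic
  have h2 : Algebra.IsAlgebraic (MvPolynomial t A) L := by
    have e := h.1.aevalEquiv
    constructor
    intro y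
    refine (h1.isAlgebraic y).of_ringHom_of_comp_eq (A := L) (B := L)
      (h.1.aevalEquiv : MvPolynomial t A →+* _) (RingHom.id L) ?_ ?_ ?_
    · exact h.1.aevalEquiv.surjective
    · exact Function.injective_id
    · ext x <;> simp [halg]
  have h3 : Algebra.IsAlgebraic (FractionRing (MvPolynomial t A)) L :=
    ⟨fun y => (h2.isAlgebraic y).extendScalars (IsFractionRing.injective (MvPolynomial t A) _)⟩
  have : CharZero (FractionRing (MvPolynomial t A)) := by
    exact charZero_of_injective_algebraMap (IsFractionRing.injective (MvPolynomial t A) _)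
  have h4 : Algebra.IsSeparable (FractionRing (MvPolynomial t A)) L := inferInstance
  have h5 : Algebra.FormallyEtale (FractionRing (MvPolynomial t A)) L :=
    Algebra.FormallyEtale.of_isSeparable _ L
  have h6 : Algebra.FormallyEtale (MvPolynomial t A) (FractionRing (MvPolynomial t A)) :=
    Algebra.FormallyEtale.of_isLocalization (nonZeroDivisors _)
  have h7 : Algebra.FormallyEtale (MvPolynomial t A) L :=
    Algebra.FormallyEtale.comp _ (FractionRing (MvPolynomial t A)) _
  have hb := ((mvPolynomialBasis A t).baseChange L).linearIndependent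
  have hc := hb.map' (tensorKaehlerEquivOfFormallyEtale A (MvPolynomial t A) L).toLinearMap
    (LinearEquiv.ker _)
  have he : (fun i => KaehlerDifferential.D A L (b i)) =
      (tensorKaehlerEquivOfFormallyEtale A (MvPolynomial t A) L).toLinearMap ∘
        ((mvPolynomialBasis A t).baseChange L) := by
    funext i
    simp [halg]
  rw [he]
  exact hc

theorem lin_of_alg {L : Type} [Field L] [CharZero L] (A : Subring L) {ι : Type} [Finite ι]
    (x : ι → L) (h : AlgebraicIndependent A x) :
    LinearIndependent L (fun i => KaehlerDifferential.D A L (x i)) := by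
  obtain ⟨t, hst, ht⟩ := exists_isTranscendenceBasis_superset (s := Set.range x)
    ((algebraicIndependent_subtype_range h.injective).2 h)
  have h1 := lin_of_tb A _ ht
  exact h1.comp (fun i : ι => (⟨x i, hst ⟨i, rfl⟩⟩ : t))
    (fun i j hij => h.injective (congrArg Subtype.val hij))

end Pool.Agent.H8KD
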