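import Mathlib

set_option autoImplicit false

namespace Pool.Agent.H8KD

open KaehlerDifferential MvPolynomial

theorem D_aeval {L : Type} [Field L] (A : Subring L) {ι : Type} [Fintype ι]
    (x : ι → L) (p : MvPolynomial ι A) :
    KaehlerDifferential.D A L (aeval x p) =
      ∑ i, aeval x (pderiv i p) • KaehlerDifferential.D A L (x i) := by
  classical
  induction p using MvPolynomial.induction_on with
  | C a => simp
  | add p q hp hq => simp [hp, hq, add_smul, Finset.sum_add_distrib]
  | mul_X p j hp =>
    rw [map_mul, Derivation.leibniz, hp, aeval_X]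
    simp only [pderiv_mul, map_add, map_mul, aeval_X, add_smul, Finset.sum_add_distrib,
      Finset.smul_sum, smul_smul, pderiv_X]
    rw [add_comm]
    congr 1
    · exact Finset.sum_congr rfl fun i _ => by rw [mul_comm]
    · rw [Finset.sum_eq_single j]
      · simp
      · intro i _ hi
        rw [Pi.single_eq_of_ne hi.symm]
        simp
      · simp

theorem coeff_of_pderiv {R : Type} [CommRing R] {ι : Type} (p : MvPolynomial ι R) (m : ι →₀ ℕ)
    (i : ι) (hi : m i ≠ 0) :
    coeff (m - Finsupp.single i 1) (pderiv i p) = coeff m p * (m i : R) := by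
  rw [coeff_pderiv]
  have h1 : m - Finsupp.single i 1 + Finsupp.single i 1 = m := by
    apply tsub_add_cancel_of_le
    rw [Finsupp.single_le_iff]
    omega
  rw [h1]
  congr 1
  simp only [Finsupp.coe_tsub, Pi.sub_apply, Finsupp.single_eq_same]
  obtain ⟨k, hk⟩ := Nat.exists_eq_succ_of_ne_zero hi
  rw [hk]
  simp

theorem deg_pderiv {R : Type} [CommRing R] {ι : Type} (p : MvPolynomial ι R) (i : ι) {n : ℕ}
    (h : p.totalDegree ≤ n + 1) : (pderiv i p).totalDegree ≤ n := by
  rw [totalDegree, Finset.sup_le_iff] at h ⊢
  intro m hm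
  rw [mem_support_iff, coeff_pderiv] at hm
  have h1 : m + Finsupp.single i 1 ∈ p.support := by
    rw [mem_support_iff]
    intro h0
    rw [h0, zero_mul] at hm
    exact hm rfl
  have h2 := h _ h1
  rw [Finsupp.sum_add_index' (by simp) (by simp), Finsupp.sum_single_index (by simp)] at h2
  omega

theorem alg_of_lin {L : Type} [Field L] [CharZero L] (A : Subring L) {ι : Type} [Finite ι]
    (x : ι → L) (h : LinearIndependent L (fun i => KaehlerDifferential.D A L (x i))) :
    AlgebraicIndependent A x := by
  classical
  have := Fintype.ofFinite ι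
  have hconst : ∀ p : MvPolynomial ι A, (∀ m, m ≠ 0 → coeff m p = 0) → aeval x p = 0 →
      p = 0 := by
    intro p hp h0
    have h1 : p = C (coeff 0 p) := by
      ext m
      rw [coeff_C]
      by_cases hm : m = 0
      · rw [hm, if_pos rfl]
      · rw [if_neg (Ne.symm hm), hp m hm]
    rw [h1, aeval_C] at h0
    have h2 : coeff 0 p = 0 := Subtype.ext h0
    rw [h1, h2, map_zero]
  have key : ∀ n : ℕ, ∀ p : MvPolynomial ι A, p.totalDegree ≤ n → aeval x p = 0 → p = 0 := by
    intro n
    induction n with
    | zero =>
      intro p hp h0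
      apply hconst p _ h0
      intro m hm
      rw [totalDegree_eq_zero_iff_eq_C.1 (Nat.le_zero.1 hp), coeff_C, if_neg (Ne.symm hm)]
    | succ n ih =>
      intro p hp h0
      have h1 := D_aeval A x p
      rw [h0, map_zero] at h1
      have h2 := Fintype.linearIndependent_iff.1 h _ h1.symm
      have h3 : ∀ i, pderiv i p = 0 := fun i => ih _ (deg_pderiv p i hp) (h2 i)
      apply hconst p _ h0
      intro m hm
      obtain ⟨i, hi⟩ : ∃ i, m i ≠ 0 := by
        by_contra hcon
        push Not at hcon
        exact hm (Finsupp.ext hcon)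
      have h4 := coeff_of_pderiv p m i hi
      rw [h3 i, coeff_zero] at h4
      have h5 : ((m i : ℕ) : A) ≠ 0 := by
        exact_mod_cast hi
      exact (mul_eq_zero.1 h4.symm).resolve_right h5
  rw [algebraicIndependent_iff]
  intro p hp
  exact key _ p le_rfl hp

end Pool.Agent.H8KD
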